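import Pool.Agent.H21.T3.Stm

set_option autoImplicit false
open Classical
open Pool.Agent.H21.T3
open Pool.Agent.H21.SD (c outs Bx c_symm c_le_one mem_Bx)

namespace Pool.Agent.H12.T3

theorem ch1 {S : Finset V} {l : List V} {v : V} (hl : l.Nodup) (h : ∑ s ∈ S, c l v (v + s) = 1) :
    ch S l v ∈ S ∧ c l v (v + ch S l v) = 1 := by
  have hex : ∃ s ∈ S, c l v (v + s) = 1 := by
    by_contra hn
    push Not at hn
    have : ∑ s ∈ S, c l v (v + s) = 0 := Finset.sum_eq_zero fun s hs => by
      have h1 := c_le_one l v (v + s) hl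
      have h2 := hn s hs
      omega
    omega
  have hh : ∑ s ∈ S, c l v (v + s) = 1 ∧ ∃ s ∈ S, c l v (v + s) = 1 := ⟨h, hex⟩
  unfold ch
  rw [dif_pos hh]
  exact hh.2.choose_spec

theorem ch0 {S : Finset V} {l : List V} {v : V} (h : ∑ s ∈ S, c l v (v + s) ≠ 1)
    (hex : ∃ s ∈ S, c l v (v + s) = 0) :
    ch S l v ∈ S ∧ c l v (v + ch S l v) = 0 := by
  unfold ch
  rw [dif_neg (fun h1 => h h1.1), dif_pos hex]
  exact hex.choose_spec

theorem s3 (g : V → ℕ) : ∑ s ∈ S3, g s = g (1, 0) + g (0, 1) + g (-1, 1) := by
  unfold S3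
  rw [Finset.sum_insert (by decide), Finset.sum_insert (by decide), Finset.sum_singleton, add_assoc]

theorem s2 (g : V → ℕ) : ∑ s ∈ S2, g s = g (1, 0) + g (0, 1) := by
  unfold S2
  rw [Finset.sum_insert (by decide), Finset.sum_singleton]

theorem mem3 {t : V} (h : t ∈ S3) : t = (1, 0) ∨ t = (0, 1) ∨ t = (-1, 1) := by
  unfold S3 at h
  simpa using h

theorem mem2 {t : V} (h : t ∈ S2) : t = (1, 0) ∨ t = (0, 1) := by
  unfold S2 at h
  simpa using h

theorem memS {S : Finset V} (hS : Ok S) {t : V} (h : t ∈ S) : t = (1, 0) ∨ t = (0, 1) ∨ t = (-1, 1) := by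
  rcases hS with rfl | rfl
  · rcases mem2 h with h | h
    · exact Or.inl h
    · exact Or.inr (Or.inl h)
  · exact mem3 h

theorem t_DET (hDEG : S_DEG) : S_DET := by
  intro S hS a b l l' i j n hl hl' hvis hD hch
  have main : ∀ k : ℕ, ∀ v ∈ Bx i j n, (v.2 - j).toNat * n + (v.1 - i).toNat = k →
      ∀ s ∈ S, c l v (v + s) = c l' v (v + s) := by
    intro k
    induction k using Nat.strong_induction_on with
    | _ k ih =>
    intro v hv hk
    have hvb := mem_Bx.1 hv
    have hback : ∀ s ∈ S, c l v (v - s) = c l' v (v - s) := by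
      intro s hs
      rw [c_symm l, c_symm l']
      have e : v = (v - s) + s := by abel
      by_cases hin : v - s ∈ Bx i j n
      · have hlt : ((v - s).2 - j).toNat * n + ((v - s).1 - i).toNat < k := by
          have hb := mem_Bx.1 hin
          rw [← hk]
          obtain ⟨x, y⟩ := v
          rcases memS hS hs with rfl | rfl | rfl
          · simp only [Prod.mk_sub_mk, sub_zero] at hb ⊢
            have : (x - 1 - i).toNat < (x - i).toNat := by omega
            omega
          · simp only [Prod.mk_sub_mk, sub_zero] at hb hvb ⊢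
            have h1 : (y - j).toNat = (y - 1 - j).toNat + 1 := by omega
            rw [h1, add_mul, one_mul]
            omega
          · simp only [Prod.mk_sub_mk, sub_neg_eq_add] at hb hvb ⊢
            have h1 : (y - j).toNat = (y - 1 - j).toNat + 1 := by omega
            rw [h1, add_mul, one_mul]
            omega
        have := ih _ hlt (v - s) hin rfl s hs
        rwa [← e] at this
      · have hmem : ((v - s, s) : V × V) ∈ Dx S i j n := by
          unfold Dx
          rw [Finset.mem_filter, Finset.mem_product, Finset.mem_sdiff]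
          refine ⟨⟨⟨?_, hin⟩, hs⟩, ?_⟩
          · rw [mem_Bx]
            obtain ⟨x, y⟩ := v
            simp only at hvb
            rcases memS hS hs with rfl | rfl | rfl
            · simp only [Prod.mk_sub_mk]
              push_cast
              omega
            · simp only [Prod.mk_sub_mk]
              push_cast
              omega
            · simp only [Prod.mk_sub_mk]
              push_cast
              omega
          · simp only
            rw [← e]
            exact hv
        have := hD _ hmem
        simp only at this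
        rwa [← e] at this
    have d1 := hDEG S hS a b l hl v
    have d2 := hDEG S hS a b l' hl' v
    rw [Finset.sum_add_distrib] at d1 d2
    have hb2 : ∑ s ∈ S, c l v (v - s) = ∑ s ∈ S, c l' v (v - s) := Finset.sum_congr rfl hback
    have hmem : (v ∈ l) = (v ∈ l') := propext (hvis v hv)
    have hF : ∑ s ∈ S, c l v (v + s) = ∑ s ∈ S, c l' v (v + s) := by
      simp only [hmem] at d1
      omega
    have hF2 : ∑ s ∈ S, c l v (v + s) ≤ 2 := by
      have : (if v ∈ l then 2 else 0) ≤ 2 := by split_ifs <;> omega
      omega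
    have hn := hl.2.2.1
    have hn' := hl'.2.2.1
    have hcv := hch v hv
    obtain ⟨t, ht⟩ : ∃ t, t = ch S l v := ⟨_, rfl⟩
    rw [← ht] at hcv
    have A1 : ∑ s ∈ S, c l v (v + s) = 1 → t ∈ S ∧ c l v (v + t) = 1 ∧ c l' v (v + t) = 1 := by
      intro h1
      have r1 := ch1 hn h1
      have r2 := ch1 hn' (hF ▸ h1)
      rw [← ht] at r1
      rw [← hcv] at r2
      exact ⟨r1.1, r1.2, r2.2⟩
    have A0 : ∑ s ∈ S, c l v (v + s) ≠ 1 → (∃ s ∈ S, c l v (v + s) = 0) → (∃ s ∈ S, c l' v (v + s) = 0) →
        t ∈ S ∧ c l v (v + t) = 0 ∧ c l' v (v + t) = 0 := by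
      intro h1 h2 h3
      have r1 := ch0 h1 h2
      have r2 := ch0 (hF ▸ h1) h3
      rw [← ht] at r1
      rw [← hcv] at r2
      exact ⟨r1.1, r1.2, r2.2⟩
    have b1 := fun s => c_le_one l v (v + s) hn
    have b2 := fun s => c_le_one l' v (v + s) hn'
    rcases hS with rfl | rfl
    · rw [s2, s2] at hF
      rw [s2] at hF2 A1 A0
      have p1 := b1 (1, 0)
      have p2 := b1 (0, 1)
      have q1 := b2 (1, 0)
      have q2 := b2 (0, 1)
      have fin : c l v (v + (1, 0)) = c l' v (v + (1, 0)) ∧ c l v (v + (0, 1)) = c l' v (v + (0, 1)) := by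
        by_cases hs1 : c l v (v + (1, 0)) + c l v (v + (0, 1)) = 1
        · obtain ⟨u1, u2, u3⟩ := A1 hs1
          rcases mem2 u1 with rfl | rfl
          · omega
          · omega
        · omega
      intro s hs
      rcases mem2 hs with rfl | rfl
      · exact fin.1
      · exact fin.2
    · rw [s3, s3] at hF
      rw [s3] at hF2 A1 A0
      have p1 := b1 (1, 0)
      have p2 := b1 (0, 1)
      have p3 := b1 (-1, 1)
      have q1 := b2 (1, 0)
      have q2 := b2 (0, 1)
      have q3 := b2 (-1, 1)
      have fin : c l v (v + (1, 0)) = c l' v (v + (1, 0)) ∧ c l v (v + (0, 1)) = c l' v (v + (0, 1)) ∧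
          c l v (v + (-1, 1)) = c l' v (v + (-1, 1)) := by
        by_cases hs1 : c l v (v + (1, 0)) + c l v (v + (0, 1)) + c l v (v + (-1, 1)) = 1
        · obtain ⟨u1, u2, u3⟩ := A1 hs1
          rcases mem3 u1 with rfl | rfl | rfl
          · omega
          · omega
          · omega
        · by_cases hs0 : c l v (v + (1, 0)) + c l v (v + (0, 1)) + c l v (v + (-1, 1)) = 0
          · omega
          · have z : ∀ f : V → ℕ, (f (1, 0) ≤ 1 ∧ f (0, 1) ≤ 1 ∧ f (-1, 1) ≤ 1) →
                f (1, 0) + f (0, 1) + f (-1, 1) = 2 → ∃ s ∈ S3, f s = 0 := by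
              intro f hf h2
              by_contra hcon
              push Not at hcon
              have m1 := hcon (1, 0) (by unfold S3; decide)
              have m2 := hcon (0, 1) (by unfold S3; decide)
              have m3 := hcon (-1, 1) (by unfold S3; decide)
              omega
            have z1 := z (fun s => c l v (v + s)) ⟨p1, p2, p3⟩ (by show _ = 2; omega)
            have z2 := z (fun s => c l' v (v + s)) ⟨q1, q2, q3⟩ (by show _ = 2; omega)
            obtain ⟨u1, u2, u3⟩ := A0 hs1 z1 z2
            rcases mem3 u1 with rfl | rfl | rfl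
            · omega
            · omega
            · omega
      intro s hs
      rcases mem3 hs with rfl | rfl | rfl
      · exact fin.1
      · exact fin.2.1
      · exact fin.2.2
  intro v hv s hs
  exact main _ v hv rfl s hs

end Pool.Agent.H12.T3
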