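import Pool.Agent.H21.T3.Stm

set_option autoImplicit false
open Classical
open scoped ENNReal
open Pool.Agent.H21.T3
open Pool.Agent.H21.SD (c outs Bx c_symm c_le_one mem_Bx outs_length lsum)

namespace Pool.Agent.H12.T3

theorem ch_mem {S : Finset V} (hS : Ok S) (l : List V) (v : V) : ch S l v ∈ S := by
  unfold ch
  split_ifs with h1 h2
  · exact h1.2.choose_spec.1
  · exact h2.choose_spec.1
  · rcases hS with rfl | rfl
    · unfold S2; decide
    · unfold S3; decide

theorem card_Bx (i j : ℤ) (n : ℕ) : (Bx i j n).card = n ^ 2 := by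
  unfold Bx
  rw [Finset.card_product]
  simp [sq]

theorem card_S {S : Finset V} (hS : Ok S) : S.card ≤ 3 := by
  rcases hS with rfl | rfl
  · unfold S2; decide
  · unfold S3; decide

theorem card_Dx {S : Finset V} (hS : Ok S) (i j : ℤ) (n : ℕ) : (Dx S i j n).card ≤ 12 * n + 12 := by
  unfold Dx
  refine (Finset.card_filter_le _ _).trans ?_
  rw [Finset.card_product]
  have hsub : Bx i j n ⊆ Bx (i - 1) (j - 1) (n + 2) := by
    intro v hv
    rw [mem_Bx] at hv ⊢
    push_cast
    omega
  rw [Finset.card_sdiff_of_subset hsub, card_Bx, card_Bx]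
  have h1 : (n + 2) ^ 2 - n ^ 2 = 4 * n + 4 := by
    have : (n + 2) ^ 2 = n ^ 2 + (4 * n + 4) := by ring
    omega
  rw [h1]
  have h2 := card_S hS
  calc (4 * n + 4) * S.card ≤ (4 * n + 4) * 3 := Nat.mul_le_mul_left _ h2
    _ = 12 * n + 12 := by ring

theorem t_LSU (hINJ : S_INJ) : S_LSU := by
  intro S hS x hx i j n a b T m F N P hT hm hF hcount hP
  set B := Bx i j n with hB
  let w : List (List V) → ℝ≥0∞ := fun R => (R.map (fun r => x ^ r.length)).prod
  have hw : ∀ l ∈ T, x ^ l.length ≤ x ^ m * w (outs B l) := by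
    intro l hl
    have h1 := outs_length (B := B) l
    have h2 : ∀ R : List (List V), x ^ (R.map List.length).sum = w R := by
      intro R
      induction R with
      | nil => simp [w]
      | cons r R ih =>
        simp only [w, List.map_cons, List.sum_cons, List.prod_cons, pow_add] at ih ⊢
        rw [ih]
    rw [h1, pow_add, h2]
    exact mul_le_mul_left (pow_le_pow_of_le_one zero_le hx (hm l hl)) _
  refine (Finset.sum_le_sum hw).trans ?_
  rw [← Finset.mul_sum]
  refine mul_le_mul_right ?_ _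
  -- the code
  let cd : List V → Finset V × (Finset (V × V) × ({v // v ∈ B} → {s // s ∈ S})) := fun l =>
    (B.filter (fun v => v ∉ l), ((Dx S i j n).filter (fun q => c l q.1 (q.1 + q.2) = 1),
      fun v => ⟨ch S l v.1, ch_mem hS l v.1⟩))
  have hinj : Set.InjOn (fun l => (outs B l, cd l)) (T : Set (List V)) := by
    intro l hl l' hl' h
    simp only [Prod.mk.injEq, cd] at h
    obtain ⟨h1, h2, h3, h4⟩ := h
    refine hINJ S hS a b l l' i j n (hT l hl) (hT l' hl') ?_ ?_ ?_ h1
    · intro v hv
      have e : v ∈ B.filter (fun v => v ∉ l) ↔ v ∈ B.filter (fun v => v ∉ l') := by rw [h2]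
      rw [Finset.mem_filter, Finset.mem_filter] at e
      constructor
      · intro hvl
        by_contra hc
        exact (e.2 ⟨hv, hc⟩).2 hvl
      · intro hvl
        by_contra hc
        exact (e.1 ⟨hv, hc⟩).2 hvl
    · intro q hq
      have e : q ∈ (Dx S i j n).filter (fun q => c l q.1 (q.1 + q.2) = 1) ↔
          q ∈ (Dx S i j n).filter (fun q => c l' q.1 (q.1 + q.2) = 1) := by rw [h3]
      rw [Finset.mem_filter, Finset.mem_filter] at e
      have b1 := c_le_one l q.1 (q.1 + q.2) (hT l hl).2.2.1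
      have b2 := c_le_one l' q.1 (q.1 + q.2) (hT l' hl').2.2.1
      by_cases h5 : c l q.1 (q.1 + q.2) = 1
      · rw [h5, (e.1 ⟨hq, h5⟩).2]
      · by_cases h6 : c l' q.1 (q.1 + q.2) = 1
        · exact absurd (e.2 ⟨hq, h6⟩).2 h5
        · omega
    · intro v hv
      have e := congr_fun h4 ⟨v, hv⟩
      exact congrArg Subtype.val e
  have e1 : ∑ l ∈ T, w (outs B l) = ∑ q ∈ T.image (fun l => (outs B l, cd l)), w q.1 := by
    rw [Finset.sum_image hinj]
  rw [e1]
  have hsub : T.image (fun l => (outs B l, cd l)) ⊆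
      (T.image (outs B)) ×ˢ (F ×ˢ ((Dx S i j n).powerset ×ˢ
        (Finset.univ : Finset ({v // v ∈ B} → {s // s ∈ S})))) := by
    intro q hq
    rw [Finset.mem_image] at hq
    obtain ⟨l, hl, rfl⟩ := hq
    rw [Finset.mem_product, Finset.mem_product, Finset.mem_product]
    exact ⟨Finset.mem_image_of_mem _ hl, hF l hl, Finset.mem_powerset.2 (Finset.filter_subset _ _),
      Finset.mem_univ _⟩
  refine (Finset.sum_le_sum_of_subset hsub).trans ?_
  rw [Finset.sum_product]
  have hcard : ((F ×ˢ ((Dx S i j n).powerset ×ˢ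
        (Finset.univ : Finset ({v // v ∈ B} → {s // s ∈ S})))).card : ℝ≥0∞) ≤
      F.card * 2 ^ (12 * n + 12) * S.card ^ (n ^ 2) := by
    rw [Finset.card_product, Finset.card_product, Finset.card_powerset, Finset.card_univ,
      Fintype.card_fun, Fintype.card_coe, Fintype.card_coe, hB, card_Bx]
    push_cast
    rw [← mul_assoc]
    refine mul_le_mul_left ?_ _
    refine mul_le_mul_right ?_ _
    exact pow_le_pow_right₀ (by norm_num) (card_Dx hS i j n)
  have e2 : ∀ R ∈ T.image (outs B), ∑ _C ∈ (F ×ˢ ((Dx S i j n).powerset ×ˢ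
        (Finset.univ : Finset ({v // v ∈ B} → {s // s ∈ S})))), w R ≤
      (F.card * 2 ^ (12 * n + 12) * S.card ^ (n ^ 2)) * w R := by
    intro R _
    rw [Finset.sum_const, nsmul_eq_mul]
    exact mul_le_mul_left hcard _
  refine (Finset.sum_le_sum e2).trans ?_
  rw [← Finset.mul_sum]
  refine mul_le_mul_right ?_ _
  have hlen : ∀ R ∈ T.image (outs B), R.length ∈ Finset.range (N.card + 1) := by
    intro R hR
    rw [Finset.mem_image] at hR
    obtain ⟨l, hl, rfl⟩ := hR
    rw [Finset.mem_range]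
    exact Nat.lt_succ_of_le (hcount l hl)
  rw [← Finset.sum_fiberwise_of_maps_to hlen]
  refine Finset.sum_le_sum fun k _ => ?_
  refine lsum P (fun r => x ^ r.length) k _ ?_
  intro R hR
  rw [Finset.mem_filter, Finset.mem_image] at hR
  obtain ⟨⟨l, hl, rfl⟩, hk⟩ := hR
  exact ⟨hk, fun r hr => hP l hl r hr⟩

end Pool.Agent.H12.T3
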